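import Pool.Agent.Helper52.Rare.Main

/-!
# MP_92893d_lc: programs with rare errors do not need independent random blocks
-/

set_option autoImplicit false

namespace Pool.Agent.Results.MP_92893d_lc.RareErrors

open Pool.Agent.Helper52.Rare

/-- **Rare errors.**  (1) A read-once program with `m` blocks and at most `card σ` states at the
block boundaries; the random variables `G 0 y, ..., G (m-1) y` (functions of one seed `y`) are
single blocks whose transition probabilities are, when at least `θ`, at most `1 / lam` times the
true ones; no independence is assumed.  If the program ends in `B` with probability `μ` on the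
string `G 0 y, ..., G (m-1) y`, then it ends in `B` with probability at least
`w (lam (μ - m w² θ) / w) ^ m` on `m` independent uniform blocks (`w = card σ`).
(2) With `G k y = y`, `lam = 1`, `θ = 0`, `μ = 1` the bound is `w ^ -(m-1)`, and
`(w - 1) ^ -(m-1)` is attained. -/
theorem result :
    (∀ (σ X Y : Type) [Fintype σ] [Fintype X] [Nonempty X] [Fintype Y] [Nonempty Y]
      (T : ℕ → σ → X → σ) (s : σ) (G : ℕ → Y → X) (B : σ → Prop) (m : ℕ) (lam θ μ : ℝ),
      0 < m → 0 ≤ lam → 0 ≤ θ → m * (Fintype.card σ : ℝ) ^ 2 * θ ≤ μ →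
      (∀ k < m, ∀ a c : σ, θ ≤ prob (fun y : Y => T k a (G k y) = c) →
        lam * prob (fun y : Y => T k a (G k y) = c) ≤ prob (fun x : X => T k a x = c)) →
      μ ≤ prob (fun y : Y => B (run T s m fun i => G i y)) →
      (Fintype.card σ : ℝ) *
          (lam * (μ - m * (Fintype.card σ : ℝ) ^ 2 * θ) / Fintype.card σ) ^ m ≤
        prob (fun z : Fin m → X => B (run T s m z))) ∧
    (∀ (A Z : Type) [Fintype A] [Nonempty A] [Fintype Z] [Nonempty Z] (m : ℕ), 0 < m →
      ∃ (T : ℕ → Option A → A × Z → Option A) (s : Option A) (B : Option A → Prop),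
        (∀ x : A × Z, B (run T s m fun _ => x)) ∧
        prob (fun z : Fin m → A × Z => B (run T s m z)) =
          (1 / ((Fintype.card (Option A) : ℝ) - 1)) ^ (m - 1)) := by
  classical
  refine ⟨?_, ?_⟩
  · intro σ X Y _ _ _ _ _ T s G B m lam θ μ hm hlam hθ hμθ hG hμ
    exact main T s G B m hm lam θ μ hlam hθ hG hμ hμθ
  · intro A Z _ _ _ _ m hm
    refine ⟨cmp, none, fun s => s ≠ none, (sharp m hm).1, ?_⟩
    rw [(sharp m hm).2, Fintype.card_option]
    push_cast
    rw [add_sub_cancel_right]

end Pool.Agent.Results.MP_92893d_lc.RareErrors
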